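import Mathlib

namespace Pool.Agent.Results.MP_93f727_an.Counter

open PowerSeries Finset

/-- The q-Pochhammer symbol `(α;q)_n`. -/
def poch {R : Type} [CommRing R] (α q : R) (n : ℕ) : R := ∏ j ∈ range n, (1 - α * q ^ j)

/-- The coefficient `d_n`. -/
def dd {R : Type} [CommRing R] (a b c q : R) : ℕ → R
  | 0 => a + b + c - a * b * c
  | n + 1 => (a + b + c) * q ^ (n + 1) + a * b * c * q ^ n * (1 - q ^ (n + 1) - q ^ (n + 2))

/-- The coefficient `f_n`. -/
def ff {R : Type} [CommRing R] (a b c q : R) (n : ℕ) : R :=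
  (1 - a * b * q ^ n) * (1 - a * c * q ^ n) * (1 - b * c * q ^ n)

/-- Continuous dual q-Hahn polynomials evaluated at `x`. -/
def psi {R : Type} [CommRing R] (x a b c q : R) : ℕ → R
  | 0 => 1
  | 1 => 2 * x - dd a b c q 0
  | n + 2 => (2 * x - dd a b c q (n + 1)) * psi x a b c q (n + 1)
      - (1 - q ^ (n + 1)) * ff a b c q n * psi x a b c q n

/-- The q-binomial coefficient. -/
noncomputable def qbin (q : ℝ) (n i : ℕ) : ℝ := poch q q n / (poch q q i * poch q q (n - i))

/-- One term of the Askey-Wilson sum, all parameters being power series in `t`. -/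
noncomputable def term (x a b c d q : ℝ⟦X⟧) (n i : ℕ) : ℝ⟦X⟧ :=
  (-a) ^ (n - i) * q ^ ((n - i).choose 2) *
    (poch (b * c * q ^ i) q (n - i) * poch (b * d * q ^ i) q (n - i) *
      poch (c * d * q ^ i) q (n - i)) *
    (poch (a * b * c * d * q ^ (n + i - 1)) q (n - i))⁻¹ * psi x b c d q i

/-- `AW_n(x|a,b,c,t,q)` as a power series in `t`. -/
noncomputable def AW (x a b c q : ℝ) (n : ℕ) : ℝ⟦X⟧ :=
  ∑ i ∈ range (n + 1), C (qbin q n i) * term (C x) (C a) (C b) (C c) X (C q) n i

/-- The shifted generating function `G_n(t)`. -/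
noncomputable def G (x a b c q : ℝ) (n : ℕ) : ℝ⟦X⟧ :=
  PowerSeries.mk fun i => psi x a b c q (i + n) / poch q q i

/-- The right side of the conjectured identity. -/
noncomputable def rhs (x a b c q : ℝ) (n : ℕ) : ℝ⟦X⟧ :=
  AW x a b c q n *
    (poch (C a * X) (C q) n * poch (C b * X) (C q) n * poch (C c * X) (C q) n)⁻¹ * G x a b c q 0

lemma key (x a b c q : ℝ) (hq : q ≠ 1) (h : G x a b c q 1 = rhs x a b c q 1) :
    -(a * b * c) * (3 + q) * (2 * x - (a + b + c - a * b * c)) - ff a b c q 0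
      - a * (1 - b * c) * (b + c) + (1 - b * c) + a * b * c * (2 * x - b - c) = 0 := by
  have hq' : (1 - q) ≠ 0 := sub_ne_zero.mpr (Ne.symm hq)
  set P : ℝ⟦X⟧ := (1 - C a * X) * (1 - C b * X) * (1 - C c * X) with hP
  set D : ℝ⟦X⟧ := 1 - C a * C b * C c * X with hD
  have hPi : P * P⁻¹ = 1 := PowerSeries.mul_inv_cancel _ (by simp [hP])
  have hDi : D * D⁻¹ = 1 := PowerSeries.mul_inv_cancel _ (by simp [hD])
  have hA : AW x a b c q 1 = -C a * ((1 - C b * C c) * (1 - C b * X) * (1 - C c * X)) * D⁻¹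
      + (2 * C x - (C b + C c + X - C b * C c * X)) := by
    simp [AW, term, qbin, poch, psi, dd, sum_range_succ, hq', hD]
  have hr : rhs x a b c q 1 = AW x a b c q 1 * P⁻¹ * G x a b c q 0 := by
    simp [rhs, poch, hP]
  have e : P * D * G x a b c q 1 =
      (-C a * ((1 - C b * C c) * (1 - C b * X) * (1 - C c * X))
        + D * (2 * C x - (C b + C c + X - C b * C c * X))) * G x a b c q 0 := by
    rw [h, hr, hA]
    linear_combination (-C a * ((1 - C b * C c) * (1 - C b * X) * (1 - C c * X)) * D⁻¹ * D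
      + D * (2 * C x - (C b + C c + X - C b * C c * X))) * G x a b c q 0 * hPi
      + (-C a * ((1 - C b * C c) * (1 - C b * X) * (1 - C c * X))) * G x a b c q 0 * hDi
  have e1 := congrArg (coeff 1) e
  have h2 : (2 : ℝ⟦X⟧) = C 2 := (map_ofNat C 2).symm
  simp only [hP, hD, h2, coeff_one_mul, map_mul, map_sub, map_add, map_neg, map_one,
    constantCoeff_C, constantCoeff_X, coeff_one_X, coeff_C, coeff_one, neg_mul,
    G, coeff_mk, constantCoeff_mk] at e1
  simp [psi, dd, poch] at e1
  field_simp at e1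
  have : (1 - q) * (-(a * b * c) * (3 + q) * (2 * x - (a + b + c - a * b * c)) - ff a b c q 0
      - a * (1 - b * c) * (b + c) + (1 - b * c) + a * b * c * (2 * x - b - c)) = 0 := by
    linear_combination e1
  exact (mul_eq_zero.mp this).resolve_left hq'

theorem result (a b c q : ℝ) (hq : -1 < q) (hq' : q < 1) (habc : a * b * c ≠ 0) :
    ∃ x : ℝ, G x a b c q 1 ≠ rhs x a b c q 1 := by
  by_contra hc
  push Not at hc
  have h0 := key 0 a b c q hq'.ne (hc 0)
  have h1 := key 1 a b c q hq'.ne (hc 1)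
  have : a * b * c * (2 + q) = 0 := by linear_combination (h0 - h1) / 2
  rcases mul_eq_zero.mp this with h | h
  · exact habc h
  · linarith

end Pool.Agent.Results.MP_93f727_an.Counter
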